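import Pool.Agent.Helper36.BCH.Family

/-!
# Families of primitive BCH codes whose minimum distance is the designed distance
-/

open Pool.Agent.Helper36.BCH

/-- Let `F ⊆ K ⊆ L` be finite fields, `r = |F|`, `q = |K|`, `q ^ m = |L|`, `d ∣ r - 1`,
`a * d ≤ q - 1` and `δ = a * r ^ h + (r ^ h - 1) / d ≥ 2`, where `q * r ^ h ≤ q ^ m`, or `a = 0`
and `r ^ h ≤ q ^ m`.  Then the narrow-sense primitive BCH code over `K` of length `q ^ m - 1` and
designed distance `δ` has minimum distance exactly `δ`. -/
theorem Pool.Agent.Results.MP_049e46_lc.SubfieldFamilies.result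
    {F K L : Type} [Field F] [Field K] [Field L] [Fintype F] [Fintype K] [Fintype L]
    [Algebra F K] [Algebra K L] [Algebra F L] [IsScalarTower F K L]
    {α : L} (hα : IsPrimitiveElement α) {d a h δ : ℕ}
    (hd : d ∣ Fintype.card F - 1) (ha : a * d ≤ Fintype.card K - 1)
    (hL : a = 0 ∧ Fintype.card F ^ h ≤ Fintype.card L ∨
      Fintype.card K * Fintype.card F ^ h ≤ Fintype.card L)
    (hδ : δ = a * Fintype.card F ^ h + (Fintype.card F ^ h - 1) / d) (hδ2 : 2 ≤ δ) :
    IsMinDist K α δ δ := by
  classical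
  have hr : 1 < Fintype.card F := Fintype.one_lt_card
  have hLc : Fintype.card L = Fintype.card F ^ Module.finrank F L :=
    Module.card_eq_pow_finrank (K := F) (V := L)
  have hKc : Fintype.card K = Fintype.card F ^ Module.finrank F K :=
    Module.card_eq_pow_finrank (K := F) (V := K)
  have hdim : a = 0 ∧ h ≤ Module.finrank F L ∨
      Module.finrank F K + h ≤ Module.finrank F L := by
    rcases hL with ⟨h1, h2⟩ | h1
    · left
      rw [hLc] at h2
      exact ⟨h1, (Nat.pow_le_pow_iff_right hr).1 h2⟩
    · right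
      rw [hLc, hKc, ← pow_add] at h1
      exact (Nat.pow_le_pow_iff_right hr).1 h1
  obtain ⟨S, hS, hcard⟩ := exists_balanced_family (F := F) (K := K) (L := L) hd ha hdim
  exact hS.isMinDist hα (by omega) (by rw [hcard, hδ])
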